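import Pool.Agent.N669.CQ.Stm

/-!
# Project CQ (helper669), part BOX (helper265): circumscribed quadrilaterals exist
-/

set_option autoImplicit false

namespace Pool.Agent.N265.CQ.BOX

open MeasureTheory Set Pool.Agent.N669.CQ

theorem t_BOX : S_BOX := by
  intro K hK
  refine ⟨?_, ?_⟩
  · unfold vol
    refine ENNReal.toReal_pos ?_ hK.comp.measure_lt_top.ne
    exact ((isOpen_interior.measure_pos volume hK.int).trans_le
      (measure_mono interior_subset)).ne'
  · obtain ⟨R0, hR0⟩ := hK.comp.isBounded.subset_closedBall (0 : P)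
    obtain ⟨R, hR, hRR⟩ : ∃ R : ℝ, 0 < R ∧ R0 ≤ R := ⟨max R0 1, by positivity, le_max_left _ _⟩
    have hk : ∀ k ∈ K, |k.1| ≤ R ∧ |k.2| ≤ R := by
      intro k hk
      have h1 : ‖k‖ ≤ R0 := mem_closedBall_zero_iff.1 (hR0 hk)
      rw [Prod.norm_def] at h1
      exact ⟨(le_max_left _ _).trans (h1.trans hRR), (le_max_right _ _).trans (h1.trans hRR)⟩
    refine ⟨(-R, -R), (R, -R), (R, R), (-R, R), ⟨?_, ?_, ?_, ?_⟩, ⟨?_, ?_, ?_, ?_⟩⟩
    · simp only [cr, Prod.fst_sub, Prod.snd_sub]
      nlinarith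
    · simp only [cr, Prod.fst_sub, Prod.snd_sub]
      nlinarith
    · simp only [cr, Prod.fst_sub, Prod.snd_sub]
      nlinarith
    · simp only [cr, Prod.fst_sub, Prod.snd_sub]
      nlinarith
    · intro k hkK
      have h := hk k hkK
      have h1 := abs_le.1 h.2
      simp only [cr, Prod.fst_sub, Prod.snd_sub]
      nlinarith [mul_nonneg hR.le (by linarith [h1.1] : 0 ≤ k.2 + R)]
    · intro k hkK
      have h := hk k hkK
      have h1 := abs_le.1 h.1
      simp only [cr, Prod.fst_sub, Prod.snd_sub]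
      nlinarith [mul_nonneg hR.le (by linarith [h1.2] : 0 ≤ R - k.1)]
    · intro k hkK
      have h := hk k hkK
      have h1 := abs_le.1 h.2
      simp only [cr, Prod.fst_sub, Prod.snd_sub]
      nlinarith [mul_nonneg hR.le (by linarith [h1.2] : 0 ≤ R - k.2)]
    · intro k hkK
      have h := hk k hkK
      have h1 := abs_le.1 h.1
      simp only [cr, Prod.fst_sub, Prod.snd_sub]
      nlinarith [mul_nonneg hR.le (by linarith [h1.1] : 0 ≤ k.1 + R)]

end Pool.Agent.N265.CQ.BOX
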